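import Pool.Agent.H301_CI.Mat
import Pool.Agent.Y363.NT.NL

/-!
Smooth complete intersections in projective space: the certificate of smoothness, and the lines in
a smooth complete intersection.
-/

set_option autoImplicit false
set_option linter.unusedSectionVars false
set_option linter.unusedDecidableInType false
set_option linter.unusedFintypeInType false

open Polynomial Pool.Agent.Y184.NT Pool.Agent.Y653

namespace Pool.Agent.H301_CI

/-- The hypersurfaces `F k = 0` in projective space meet transversally: at all common zeros, the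
gradients of the forms `F k` are linearly independent. -/
def SmoothCI {κ : Type} {N : ℕ} (F : κ → MvPolynomial (Fin N) ℂ) : Prop :=
  ∀ z : Fin N → ℂ, z ≠ 0 → (∀ k, MvPolynomial.eval z (F k) = 0) →
    LinearIndependent ℂ fun (k : κ) (i : Fin N) =>
      MvPolynomial.eval z (MvPolynomial.pderiv i (F k))

section

variable {κ : Type} [Fintype κ] [DecidableEq κ] {N : ℕ}

/-- a matrix with independent rows has a minor which is not zero -/
theorem exists_minor_ci {K : Type} [Field K] {v : κ → Fin N → K} (h : LinearIndependent K v) :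
    ∃ c : κ → Fin N, (Matrix.of fun k k' => v k (c k') : Matrix κ κ K).det ≠ 0 := by
  obtain ⟨A, hA⟩ : ∃ A : Matrix κ (Fin N) K, A = Matrix.of v := ⟨_, rfl⟩
  have h1 : A.rank = Fintype.card κ := by
    rw [hA]
    exact LinearIndependent.rank_matrix h
  have h2 : Submodule.span K (Set.range A.col) = ⊤ := by
    apply Submodule.eq_top_of_finrank_eq
    rw [← Matrix.range_mulVecLin, Module.finrank_fintype_fun_eq_card]
    exact h1
  obtain ⟨κ', a, ha, hspan, hli⟩ := exists_linearIndependent' K A.col
  rw [h2] at hspan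
  have hfin : Finite κ' := Finite.of_injective a ha
  have : Fintype κ' := Fintype.ofFinite κ'
  have hcard : Fintype.card κ' = Fintype.card κ := by
    have h3 := Module.finrank_eq_card_basis (Module.Basis.mk hli (by rw [hspan]))
    rw [Module.finrank_fintype_fun_eq_card] at h3
    exact h3.symm
  obtain ⟨σ⟩ : Nonempty (κ ≃ κ') := ⟨Fintype.equivOfCardEq hcard.symm⟩
  refine ⟨fun k => a (σ k), ?_⟩
  have h4 : LinearIndependent K (Matrix.of fun k k' => v k (a (σ k')) : Matrix κ κ K).col := by
    have h5 := hli.comp σ σ.injective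
    have h6 : (Matrix.of fun k k' => v k (a (σ k')) : Matrix κ κ K).col =
        (A.col ∘ a) ∘ σ := by
      funext k' k
      rw [hA]
      rfl
    rw [h6]
    exact h5
  have h5 := Matrix.linearIndependent_cols_iff_isUnit.1 h4
  rw [Matrix.isUnit_iff_isUnit_det] at h5
  exact h5.ne_zero

/-- the certificate of smoothness -/
theorem cert {F : κ → MvPolynomial (Fin N) ℂ} (hs : SmoothCI F) (i1 : Fin N) :
    ∃ (M : ℕ) (A : κ → MvPolynomial (Fin N) ℂ) (B : (κ → Fin N) → MvPolynomial (Fin N) ℂ),
      MvPolynomial.X i1 ^ M = ∑ k, A k * F k +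
        ∑ c, B c * (Matrix.of fun k k' => MvPolynomial.pderiv (c k') (F k) :
          Matrix κ κ (MvPolynomial (Fin N) ℂ)).det := by
  classical
  obtain ⟨v, hv⟩ : ∃ v : κ ⊕ (κ → Fin N) → MvPolynomial (Fin N) ℂ, v = Sum.elim F
    (fun c => (Matrix.of fun k k' => MvPolynomial.pderiv (c k') (F k) :
      Matrix κ κ (MvPolynomial (Fin N) ℂ)).det) := ⟨_, rfl⟩
  obtain ⟨I, hI⟩ : ∃ I : Ideal (MvPolynomial (Fin N) ℂ), I = Ideal.span (Set.range v) := ⟨_, rfl⟩
  have h1 : (MvPolynomial.X i1 : MvPolynomial (Fin N) ℂ) ∈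
      MvPolynomial.vanishingIdeal ℂ (MvPolynomial.zeroLocus ℂ I) := by
    rw [MvPolynomial.mem_vanishingIdeal_iff]
    intro z hz
    rw [MvPolynomial.mem_zeroLocus_iff] at hz
    have h2 : ∀ o, MvPolynomial.eval z (v o) = 0 := fun o => hz (v o) (by
      rw [hI]
      exact Ideal.subset_span ⟨o, rfl⟩)
    by_cases hz0 : z = 0
    · rw [hz0]
      simp
    · exfalso
      have h3 := hs z hz0 fun k => by
        have h4 := h2 (Sum.inl k)
        rw [hv] at h4
        exact h4
      obtain ⟨c, hc⟩ := exists_minor_ci h3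
      apply hc
      have h4 := h2 (Sum.inr c)
      rw [hv] at h4
      simp only [Sum.elim_inr] at h4
      rw [RingHom.map_det] at h4
      exact h4
  rw [MvPolynomial.vanishingIdeal_zeroLocus_eq_radical] at h1
  obtain ⟨M, hM⟩ := h1
  rw [hI, Ideal.mem_span_range_iff_exists_fun] at hM
  obtain ⟨A, hA⟩ := hM
  refine ⟨M, fun k => A (Sum.inl k), fun c => A (Sum.inr c), ?_⟩
  rw [← hA, Fintype.sum_sum_type, hv]
  rfl

theorem cert_at {F : κ → MvPolynomial (Fin N) ℂ} (hs : SmoothCI F) (i1 : Fin N)
    {A : Type} [CommRing A] [Algebra ℂ A] {Z : Fin N → A}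
    (hZ : ∀ k, MvPolynomial.aeval Z (F k) = 0) :
    ∃ (M : ℕ) (B : (κ → Fin N) → MvPolynomial (Fin N) ℂ), Z i1 ^ M =
      ∑ c, MvPolynomial.aeval Z (B c) * (Matrix.of fun k k' =>
        MvPolynomial.aeval Z (MvPolynomial.pderiv (c k') (F k)) : Matrix κ κ A).det := by
  obtain ⟨M, A', B, h⟩ := cert hs i1
  refine ⟨M, B, ?_⟩
  have h5 := congrArg (MvPolynomial.aeval Z) h
  rw [map_pow, MvPolynomial.aeval_X, map_add, map_sum, map_sum] at h5
  have h6 : ∑ k, MvPolynomial.aeval Z (A' k * F k) = 0 := Finset.sum_eq_zero fun k _ => by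
    rw [map_mul, hZ, mul_zero]
  rw [h6, zero_add] at h5
  rw [h5]
  refine Finset.sum_congr rfl fun c _ => ?_
  rw [map_mul]
  congr 1
  change (MvPolynomial.aeval Z : MvPolynomial (Fin N) ℂ →ₐ[ℂ] A).toRingHom _ = _
  rw [RingHom.map_det]
  rfl

variable {K : Type} [Field K] [Algebra ℂ K]

/-- the gradients along a line have unimodular minors -/
theorem unimod {F : κ → MvPolynomial (Fin N) ℂ} (hs : SmoothCI F) {a b : Fin N → K}
    (h : LinearIndependent K ![a, b]) (h0 : ∀ k, restr (F k) a b = 0) :
    ∃ B : (κ → Fin N) → K[X], ∑ c, B c * (Matrix.of fun k k' =>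
      MvPolynomial.aeval (lin a b) (MvPolynomial.pderiv (c k') (F k)) :
        Matrix κ κ K[X]).det = 1 := by
  obtain ⟨i, j, hij⟩ := Pool.Agent.Y363.NT.exists_minor h
  obtain ⟨K1, B1, hB1⟩ := cert_at hs i (A := K[X]) (Z := lin a b) h0
  obtain ⟨K2, B2, hB2⟩ := cert_at hs j (A := K[X]) (Z := lin a b) h0
  have hco : IsCoprime (lin a b i) (lin a b j) := by
    refine ⟨C ((a i * b j - a j * b i)⁻¹ * b j), C (-((a i * b j - a j * b i)⁻¹ * b i)), ?_⟩
    unfold lin
    have h1 : C (a i * b j - a j * b i)⁻¹ * C (a i * b j - a j * b i) = (1 : K[X]) := by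
      rw [← C_mul, inv_mul_cancel₀ hij, C_1]
    simp only [map_mul, map_sub, map_neg] at h1 ⊢
    linear_combination h1
  obtain ⟨u, v, huv⟩ := hco.pow (m := K1) (n := K2)
  refine ⟨fun c => u * MvPolynomial.aeval (lin a b) (B1 c) +
    v * MvPolynomial.aeval (lin a b) (B2 c), ?_⟩
  rw [← huv, hB1, hB2, Finset.mul_sum, Finset.mul_sum, ← Finset.sum_add_distrib]
  refine Finset.sum_congr rfl fun l _ => ?_
  ring

/-- the restriction of a form to a line -/
theorem lead {G : MvPolynomial (Fin N) ℂ} {e : ℕ} (hG : G.IsHomogeneous e) (a b : Fin N → K) :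
    (MvPolynomial.aeval (lin a b) G).natDegree ≤ e ∧
      (MvPolynomial.aeval (lin a b) G).coeff e = MvPolynomial.aeval b G := by
  have h1 : ∀ l, (lin a b l).natDegree ≤ 1 := by
    intro l
    unfold lin
    rw [X_mul_C, add_comm]
    exact natDegree_linear_le
  have h1c : ∀ l, (lin a b l).coeff 1 = b l := by
    intro l
    unfold lin
    rw [X_mul_C, add_comm]
    simp
  have h2 : ∀ u ∈ G.support,
      (MvPolynomial.aeval (lin a b) (MvPolynomial.monomial u (G.coeff u))).natDegree ≤ e ∧
      (MvPolynomial.aeval (lin a b) (MvPolynomial.monomial u (G.coeff u))).coeff e =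
        MvPolynomial.aeval b (MvPolynomial.monomial u (G.coeff u)) := by
    intro u hu
    have h3 : ∑ i, u i = e := by
      have h4 := hG (MvPolynomial.mem_support_iff.1 hu)
      rw [← h4, Finsupp.weight_apply, Finsupp.sum_fintype _ _ (fun i => by simp)]
      simp
    have h4 := coeff_prod_le (K := K) Finset.univ (fun i => lin a b i ^ u i) u (fun i _ =>
      (natDegree_pow_le_of_le (u i) (h1 i)).trans (by rw [mul_one]))
    rw [h3] at h4
    rw [MvPolynomial.aeval_monomial, MvPolynomial.aeval_monomial,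
      Finsupp.prod_fintype _ _ (fun i => by simp), Finsupp.prod_fintype _ _ (fun i => by simp)]
    have h5 : algebraMap ℂ K[X] (G.coeff u) = C (algebraMap ℂ K (G.coeff u)) := rfl
    rw [h5]
    refine ⟨(natDegree_C_mul_le _ _).trans h4.1, ?_⟩
    rw [coeff_C_mul, h4.2]
    congr 1
    refine Finset.prod_congr rfl fun i _ => ?_
    have h6 := coeff_pow_of_natDegree_le (m := u i) (h1 i)
    rw [mul_one, h1c] at h6
    exact h6
  have h3 : MvPolynomial.aeval (lin a b) G = ∑ u ∈ G.support,
      MvPolynomial.aeval (lin a b) (MvPolynomial.monomial u (G.coeff u)) := by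
    conv_lhs => rw [G.as_sum]
    rw [map_sum]
  constructor
  · rw [h3]
    exact natDegree_sum_le_of_forall_le _ _ fun u hu => (h2 u hu).1
  · rw [h3, finsetSum_coeff]
    conv_rhs => rw [G.as_sum]
    rw [map_sum]
    exact Finset.sum_congr rfl fun u hu => (h2 u hu).2

/-- **A smooth complete intersection of large degree does not contain the lines through its generic
point.** -/
theorem no_lines {n : ℕ} {F : κ → MvPolynomial (Fin N) ℂ} {d : κ → ℕ}
    (hF : ∀ k, (F k).IsHomogeneous (d k)) (hs : SmoothCI F) {a b : Fin N → K}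
    (hab : LinearIndependent K ![a, b]) (h0 : ∀ k, restr (F k) a b = 0)
    (hd : n + 1 < ∑ k, (d k - 1)) (e : κ ⊕ Fin (n + 1) ≃ Fin N) (τ : K) {x : Fin N → K}
    (hx : ∀ j, x j = a j + τ * b j) {C' : κ → Fin N → K}
    (hC : ∀ k k', ∑ i, MvPolynomial.aeval x (MvPolynomial.pderiv i (F k)) * C' k' i =
      (1 : Matrix κ κ K) k' k) (D : Fin n → Derivation ℂ K K) :
    (rmat e C' (Fin.cons x fun j i => D j (x i) : Fin (n + 1) → Fin N → K)).det = 0 := by
  obtain ⟨B, hB⟩ := unimod hs hab h0
  have hrel := fun k => Pool.Agent.Y363.NT.rels (hF k) (h0 k)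
  -- the point at infinity of the line
  have hb0 : ∀ k, MvPolynomial.aeval b (F k) = 0 := fun k => by
    rw [← (lead (hF k) a b).2]
    have h1 := h0 k
    unfold restr at h1
    rw [h1, coeff_zero]
  obtain ⟨i1, hi1⟩ : ∃ i1, b i1 ≠ 0 := by
    by_contra hcon
    push Not at hcon
    have h1 := hab.ne_zero 1
    apply h1
    funext j
    simpa using hcon j
  obtain ⟨M, B', hB'⟩ := cert_at hs i1 (A := K) (Z := b) hb0
  obtain ⟨c0, hc0⟩ : ∃ c0 : κ → Fin N, (Matrix.of fun k k' =>
      MvPolynomial.aeval b (MvPolynomial.pderiv (c0 k') (F k)) : Matrix κ κ K).det ≠ 0 := by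
    by_contra hcon
    push Not at hcon
    rw [Finset.sum_eq_zero fun c _ => by rw [hcon c, mul_zero]] at hB'
    exact pow_ne_zero M hi1 hB'
  have hev : ∀ G : MvPolynomial (Fin N) ℂ,
      (MvPolynomial.aeval (lin a b) G).eval τ = MvPolynomial.aeval x G := by
    intro G
    have h1 : (fun j => (lin a b j).eval τ) = x := by
      funext j
      unfold lin
      rw [eval_add, eval_C, eval_mul, eval_X, eval_C, hx]
    rw [← h1]
    have h2 : ((aeval τ : K[X] →ₐ[K] K).restrictScalars ℂ).comp (MvPolynomial.aeval (lin a b)) =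
        MvPolynomial.aeval (fun j => (lin a b j).eval τ) := by
      apply MvPolynomial.algHom_ext
      intro i
      rw [AlgHom.comp_apply, MvPolynomial.aeval_X, MvPolynomial.aeval_X]
      exact (coe_aeval_eq_eval τ) ▸ rfl
    rw [← h2]
    exact (coe_aeval_eq_eval τ) ▸ rfl
  obtain ⟨Q, hQ⟩ : ∃ Q : Fin (n + 1) → Fin N → K[X], Q = Fin.cons (lin a b) fun j i =>
      lin (fun l => D j (a l)) (fun l => D j (b l)) i + C (D j τ) * C (b i) := ⟨_, rfl⟩
  have hlin1 : ∀ (u v : Fin N → K) l, (lin u v l).natDegree ≤ 1 := by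
    intro u v l
    unfold lin
    rw [X_mul_C, add_comm]
    exact natDegree_linear_le
  have hQe : (fun j i => (Q j i).eval τ) =
      (Fin.cons x fun j i => D j (x i) : Fin (n + 1) → Fin N → K) := by
    funext j i
    rw [hQ]
    refine Fin.cases ?_ (fun j => ?_) j
    · simp only [Fin.cons_zero]
      unfold lin
      rw [eval_add, eval_C, eval_mul, eval_X, eval_C, hx]
    · simp only [Fin.cons_succ]
      unfold lin
      rw [hx, map_add, Derivation.leibniz, smul_eq_mul, smul_eq_mul]
      simp only [eval_add, eval_mul, eval_C, eval_X]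
      ring
  rw [← hQe]
  refine nl_core e (J := fun k i => MvPolynomial.aeval (lin a b) (MvPolynomial.pderiv i (F k)))
    (Q := Q) (n := fun k => d k - 1) (fun k i => (lead (hF k).pderiv a b).1) ?_ ?_ hB
    (c0 := c0) ?_ (by rw [Fintype.card_fin]; exact hd) τ (C := C') ?_
  · intro j i
    rw [hQ]
    refine Fin.cases ?_ (fun j => ?_) j
    · exact hlin1 _ _ _
    · simp only [Fin.cons_succ]
      refine natDegree_add_le_of_degree_le (hlin1 _ _ _) ?_
      rw [← C_mul, natDegree_C]
      exact Nat.zero_le 1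
  · intro k j
    obtain ⟨h1, h2, h3⟩ := hrel k
    rw [hQ]
    refine Fin.cases ?_ (fun j => ?_) j
    · simp only [Fin.cons_zero]
      have h4 : ∀ i, MvPolynomial.aeval (lin a b) (MvPolynomial.pderiv i (F k)) * lin a b i =
          C (a i) * MvPolynomial.aeval (lin a b) (MvPolynomial.pderiv i (F k)) +
          X * (C (b i) * MvPolynomial.aeval (lin a b) (MvPolynomial.pderiv i (F k))) := by
        intro i
        conv_lhs => rw [show lin a b i = C (a i) + X * C (b i) from rfl]
        ring
      rw [Finset.sum_congr rfl fun i _ => h4 i, Finset.sum_add_distrib, ← Finset.mul_sum, h1, h2,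
        mul_zero, add_zero]
    · simp only [Fin.cons_succ]
      have h4 : ∀ i, MvPolynomial.aeval (lin a b) (MvPolynomial.pderiv i (F k)) *
          (lin (fun l => D j (a l)) (fun l => D j (b l)) i + C (D j τ) * C (b i)) =
          lin (fun l => D j (a l)) (fun l => D j (b l)) i *
            MvPolynomial.aeval (lin a b) (MvPolynomial.pderiv i (F k)) +
          C (D j τ) * (C (b i) *
            MvPolynomial.aeval (lin a b) (MvPolynomial.pderiv i (F k))) := by
        intro i
        ring
      rw [Finset.sum_congr rfl fun i _ => h4 i, Finset.sum_add_distrib, ← Finset.mul_sum, h2,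
        h3 (D j), mul_zero, add_zero]
  · have h1 : (Matrix.of fun k k' => (MvPolynomial.aeval (lin a b)
        (MvPolynomial.pderiv (c0 k') (F k))).coeff (d k - 1) : Matrix κ κ K) =
        Matrix.of fun k k' => MvPolynomial.aeval b (MvPolynomial.pderiv (c0 k') (F k)) := by
      ext k k'
      exact (lead (hF k).pderiv a b).2
    rw [h1]
    exact hc0
  · intro k k'
    simp only [hev]
    exact hC k k'

end

end Pool.Agent.H301_CI
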