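import Pool.Agent.H301_CI.Reg
import Pool.Agent.R882.CLine
import Pool.Agent.Y944.NT.NLG

/-!
Varieties dominated by smooth complete intersections in projective space: the fibres are not on
lines.
-/

set_option autoImplicit false
set_option linter.unusedSectionVars false
set_option linter.overlappingInstances false
set_option linter.unusedDecidableInType false
set_option linter.unusedFintypeInType false

open FF Pool.Agent.W602.GT Pool.Agent.Y184.NT

namespace Pool.Agent.H301_CI

section

variable {N : ℕ}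

theorem eval_lin {K : Type} [Field K] [Algebra ℂ K] {a b x : Fin N → K} {τ : K}
    (hx : ∀ j, x j = a j + τ * b j) (G : MvPolynomial (Fin N) ℂ) :
    (MvPolynomial.aeval (lin a b) G).eval τ = MvPolynomial.aeval x G := by
  have hl : ∀ j, (lin a b j).eval τ = x j := by
    intro j
    unfold Pool.Agent.Y184.NT.lin
    rw [Polynomial.eval_add, Polynomial.eval_C, Polynomial.eval_mul, Polynomial.eval_X,
      Polynomial.eval_C, hx]
  induction G using MvPolynomial.induction_on with
  | C c =>
    rw [MvPolynomial.aeval_C, MvPolynomial.aeval_C]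
    exact Polynomial.eval_C
  | add p q hp hq => rw [map_add, map_add, Polynomial.eval_add, hp, hq]
  | mul_X p i hp =>
    rw [map_mul, map_mul, Polynomial.eval_mul, hp, MvPolynomial.aeval_X, MvPolynomial.aeval_X, hl]

theorem map_lin {L K : Type} [Field L] [Field K] [Algebra ℂ L] [Algebra ℂ K] [Algebra L K]
    [IsScalarTower ℂ L K] (a b : Fin N → L) (G : MvPolynomial (Fin N) ℂ) :
    MvPolynomial.aeval (lin (fun j => algebraMap L K (a j)) fun j => algebraMap L K (b j)) G =
      (MvPolynomial.aeval (lin a b) G).map (algebraMap L K) := by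
  have hl : ∀ j, lin (fun j => algebraMap L K (a j)) (fun j => algebraMap L K (b j)) j =
      (lin a b j).map (algebraMap L K) := by
    intro j
    unfold Pool.Agent.Y184.NT.lin
    rw [Polynomial.map_add, Polynomial.map_C, Polynomial.map_mul, Polynomial.map_X,
      Polynomial.map_C]
  induction G using MvPolynomial.induction_on with
  | C c =>
    rw [MvPolynomial.aeval_C, MvPolynomial.aeval_C]
    change Polynomial.C (algebraMap ℂ K c) = (Polynomial.C (algebraMap ℂ L c)).map _
    rw [Polynomial.map_C, ← IsScalarTower.algebraMap_apply]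
  | add p q hp hq => rw [map_add, map_add, Polynomial.map_add, hp, hq]
  | mul_X p i hp =>
    rw [map_mul, map_mul, Polynomial.map_mul, hp, MvPolynomial.aeval_X, MvPolynomial.aeval_X, hl]

end

section

variable {L K : Type} [Field L] [Field K] [Algebra ℂ L] [Algebra ℂ K] [Algebra L K]
  [IsScalarTower ℂ L K] [FiniteDimensional L K] {κ : Type} [Fintype κ] [DecidableEq κ] {N n : ℕ}

/-- a polynomial whose restriction to the line has degree smaller than the degree of the map vanishes
on the line -/
theorem restr_zero {G : MvPolynomial (Fin N) ℂ}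
    {a b : Fin N → L} {τ : K} {x : Fin N → K}
    (hx : ∀ j, x j = algebraMap L K (a j) + τ * algebraMap L K (b j))
    (hτ : IntermediateField.adjoin L {τ} = ⊤) (h0 : MvPolynomial.aeval x G = 0)
    (hc : (restr G a b).natDegree < Module.finrank L K) : restr G a b = 0 := by
  have h1 : Polynomial.aeval τ (restr G a b) = 0 := by
    rw [Polynomial.aeval_def, Polynomial.eval₂_eq_eval_map]
    unfold restr
    rw [← map_lin (K := K), eval_lin hx, h0]
  have h2 : (minpoly L τ).natDegree = Module.finrank L K := by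
    rw [← IntermediateField.adjoin.finrank (Algebra.IsIntegral.isIntegral τ), hτ,
      IntermediateField.finrank_top']
  refine Polynomial.eq_zero_of_dvd_of_natDegree_lt (minpoly.dvd L τ h1) ?_
  rw [h2]
  exact hc

/-- **The images of small degree of geometric genus zero.** -/
theorem images [Algebra.EssFiniteType ℂ L] [Algebra.EssFiniteType ℂ K] (hL : Algebra.trdeg ℂ L = n)
    (hpg : ∀ ω : (Fin n → Derivation ℂ L L) → L, IsPluri 1 ω →
      (∀ P : Place ℂ L, Divisorial n P → RegAt P ω) → ∀ D, ω D = 0)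
    {F : κ → MvPolynomial (Fin N) ℂ} {d : κ → ℕ} (hF : ∀ k, (F k).IsHomogeneous (d k))
    (hs : SmoothCI F) {m : ℕ} (hm : m + (n + 1) = ∑ k, (d k - 1))
    (e : κ ⊕ Fin (n + 1) ≃ Fin N)
    {x : Fin N → K} {j0 : Fin N} (hj0 : x j0 = 1) (hx : ∀ k, MvPolynomial.aeval x (F k) = 0)
    (hder : ∀ D : Derivation ℂ K K, (∀ j, D (x j) = 0) → D = 0)
    (hgenL : IntermediateField.adjoin L (Set.range x) = ⊤)
    {E : Fin n → Derivation ℂ L L} {E' : Fin n → Derivation ℂ K K}
    (hE' : ∀ i f, E' i (algebraMap L K f) = algebraMap L K (E i f))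
    (hE'i : LinearIndependent K E')
    (hdeg : Module.finrank L K ≤ 2 * m + 1) :
    m + 2 ≤ Module.finrank L K ∧ ∃ k, Module.finrank L K ≤ d k := by
  classical
  have hcL : CharZero L := charZero_of_injective_algebraMap (algebraMap ℂ L).injective
  obtain ⟨C, hC⟩ := exists_dual hs hj0 hx
  have hne := form_ne hF hj0 hx hC hder hE'i (e := e)
  have ht : ∀ f : Fin m → Fin N,
      Algebra.trace L K ((∏ k, x (f k)) * (rmat e C (erow x E')).det) = 0 := by
    intro f
    refine Pool.Agent.Y692.NT.t_Tr L K n hL hpg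
      (fun D => (∏ k, x (f k)) * (rmat e C (erow x D)).det) ?_
      (fun P _ => form_reg hF hs e hj0 hx hC hm.le f P) E E' hE'
    intro A D
    change (∏ k, x (f k)) * (rmat e C (erow x (fun i => ∑ j, A i j • D j))).det = _
    have h1 := form_pluri e C x A D
    simp only at h1
    rw [h1]
    ring
  obtain ⟨hr, a, b, τ, hab, hτ, hli⟩ := Pool.Agent.Y614.NT.stLine Pool.Agent.Y153.NT.stCB L K
    N m x j0 hj0 hgenL _ hne ht hdeg
  refine ⟨hr, ?_⟩
  by_contra hcon
  push Not at hcon
  obtain ⟨i, j, hij⟩ := Pool.Agent.Y363.NT.exists_minor hli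
  have hli' : LinearIndependent K ![fun j => algebraMap L K (a j),
      fun j => algebraMap L K (b j)] := by
    refine Pool.Agent.Y363.NT.indep_of_minor (i := i) (j := j) ?_
    rw [← map_mul, ← map_mul, ← map_sub]
    exact (map_ne_zero _).2 hij
  have h0 : ∀ k, restr (F k) (fun j => algebraMap L K (a j)) (fun j => algebraMap L K (b j)) =
      0 := by
    intro k
    have h1 := restr_zero hab hτ (hx k) ((lead (hF k) a b).1.trans_lt (hcon k))
    unfold restr at h1 ⊢
    rw [map_lin, h1, Polynomial.map_zero]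
  exact hne (no_lines hF hs hli' h0 (by omega) e τ hab hC E')

/-- the degree of the restriction to a line -/
theorem deg_restr (G : MvPolynomial (Fin N) ℂ) (a b : Fin N → L) :
    (restr G a b).natDegree ≤ G.totalDegree := by
  have h1 : ∀ l, (Pool.Agent.Y184.NT.lin a b l).natDegree ≤ 1 := by
    intro l
    unfold Pool.Agent.Y184.NT.lin
    rw [Polynomial.X_mul_C, add_comm]
    exact Polynomial.natDegree_linear_le
  have h3 : restr G a b = ∑ u ∈ G.support,
      MvPolynomial.aeval (Pool.Agent.Y184.NT.lin a b) (MvPolynomial.monomial u (G.coeff u)) := by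
    unfold restr
    conv_lhs => rw [G.as_sum]
    rw [map_sum]
  rw [h3]
  refine Polynomial.natDegree_sum_le_of_forall_le _ _ fun u hu => ?_
  have h4 := (coeff_prod_le (K := L) Finset.univ
    (fun i => Pool.Agent.Y184.NT.lin a b i ^ u i) u (fun i _ =>
    (Polynomial.natDegree_pow_le_of_le (u i) (h1 i)).trans (by rw [mul_one]))).1
  rw [MvPolynomial.aeval_monomial, Finsupp.prod_fintype _ _ (fun i => by simp)]
  have h5 : algebraMap ℂ (Polynomial L) (G.coeff u) =
      Polynomial.C (algebraMap ℂ L (G.coeff u)) := rfl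
  rw [h5]
  refine (Polynomial.natDegree_C_mul_le _ _).trans (h4.trans ?_)
  have h6 := MvPolynomial.le_totalDegree hu
  rwa [Finsupp.sum_fintype _ _ (fun i => rfl)] at h6

end

section

variable {L K M : Type} [Field L] [Field K] [Field M] [Algebra ℂ L] [Algebra ℂ K] [Algebra ℂ M]
  [Algebra L K] [Algebra M K] [IsScalarTower ℂ L K] [IsScalarTower ℂ M K] [FiniteDimensional L K]
  [FiniteDimensional M K] {N n : ℕ}

/-- the derivations are determined by their values at the coordinates -/
theorem der_zero_of {x : Fin N → M} (hgen : IntermediateField.adjoin ℂ (Set.range x) = ⊤)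
    (hM : Algebra.trdeg ℂ M = n) [Algebra.EssFiniteType ℂ M]
    (D : Derivation ℂ K K) (hD : ∀ j, D (algebraMap M K (x j)) = 0) : D = 0 := by
  classical
  obtain ⟨z, EM, hz, hEM⟩ := Pool.Agent.Y172.exists_crd (k := ℂ) (K := M) hM
  choose EK hEK using fun i => Pool.Agent.Y172.exists_lift (k := ℂ) (K := M) (L := K) hM (EM i)
  have hzK : IsTranscendenceBasis ℂ (fun j => algebraMap M K (z j)) := hz.algebraMap_comp
  have hEKd := Pool.Agent.Y172.lift_dual hEM hEK
  let C0 : IntermediateField ℂ M :=
    { carrier := {f | D (algebraMap M K f) = 0}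
      mul_mem' := fun {f g} hf hg => by
        change D (algebraMap M K (f * g)) = 0
        rw [map_mul, D.leibniz, show D (algebraMap M K f) = 0 from hf,
          show D (algebraMap M K g) = 0 from hg]
        simp
      add_mem' := fun {f g} hf hg => by
        change D (algebraMap M K (f + g)) = 0
        rw [map_add, map_add, show D (algebraMap M K f) = 0 from hf,
          show D (algebraMap M K g) = 0 from hg, add_zero]
      algebraMap_mem' := fun c => by
        change D (algebraMap M K (algebraMap ℂ M c)) = 0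
        rw [← IsScalarTower.algebraMap_apply]
        exact D.map_algebraMap c
      inv_mem' := fun f hf => by
        change D (algebraMap M K f⁻¹) = 0
        rw [map_inv₀, Derivation.leibniz_inv, show D (algebraMap M K f) = 0 from hf,
          smul_zero] }
  have h2 : IntermediateField.adjoin ℂ (Set.range x) ≤ C0 := by
    rw [IntermediateField.adjoin_le_iff]
    rintro _ ⟨j, rfl⟩
    exact hD j
  have h1 := Pool.Agent.W73.PG.PULL.expand _ hzK EK hEKd D
  rw [← h1]
  refine Finset.sum_eq_zero fun j _ => ?_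
  have h3 : z j ∈ IntermediateField.adjoin ℂ (Set.range x) := by
    rw [hgen]
    trivial
  have h4 : D (algebraMap M K (z j)) = 0 := h2 h3
  rw [h4, zero_smul]

/-- **The correspondences of small degree with varieties of geometric genus zero, of varieties with
positive canonical bundle which are cut out by equations of small degree.** -/
theorem images_cut [Algebra.EssFiniteType ℂ L] [Algebra.EssFiniteType ℂ K]
    [Algebra.EssFiniteType ℂ M] (hL : Algebra.trdeg ℂ L = n) (hM : Algebra.trdeg ℂ M = n)
    (hpg : ∀ ω : (Fin n → Derivation ℂ L L) → L, IsPluri 1 ω →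
      (∀ P : Place ℂ L, Divisorial n P → RegAt P ω) → ∀ D, ω D = 0)
    {m c : ℕ} {x : Fin N → M} {j0 : Fin N} (hj0 : x j0 = 1)
    (hgen : IntermediateField.adjoin ℂ (Set.range x) = ⊤)
    (hgenL : IntermediateField.adjoin L (Set.range fun j => algebraMap M K (x j)) = ⊤)
    (hcut : ∀ G : MvPolynomial (Fin N) ℂ, MvPolynomial.aeval x G = 0 →
      ∃ H : MvPolynomial (Fin N) ℂ, MvPolynomial.aeval x H ≠ 0 ∧ H * G ∈ (Ideal.span
        {F : MvPolynomial (Fin N) ℂ | F.totalDegree ≤ c ∧ MvPolynomial.aeval x F = 0}).radical)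
    {ω : (Fin n → Derivation ℂ M M) → M} (hω : IsPluri 1 ω) (hω0 : ∃ D, ω D ≠ 0)
    (hreg : ∀ (f : Fin m → Fin N) (P : Place ℂ M), Divisorial n P →
      RegAt P (fun D => (∏ k, x (f k)) * ω D))
    (hdeg : Module.finrank L K ≤ 2 * m + 1) :
    m + 2 ≤ Module.finrank L K ∧ Module.finrank L K ≤ c := by
  classical
  have hNLG : Pool.Agent.Y184.NT.StNLG := Pool.Agent.Y944.NT.stNLG
    (Pool.Agent.Y297.NT.t_Pull Pool.Agent.Y71.NT.t_abh) Pool.Agent.Y929.NT.t_W0
    Pool.Agent.Y888.NT.stDer
  have hcL : CharZero L := charZero_of_injective_algebraMap (algebraMap ℂ L).injective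
  have hK : Algebra.trdeg ℂ K = n := Pool.Agent.Y172.trdeg_up (K := M) hM
  obtain ⟨z, EM, hz, hEM⟩ := Pool.Agent.Y172.exists_crd (k := ℂ) (K := M) hM
  choose EK hEK using fun i => Pool.Agent.Y172.exists_lift (k := ℂ) (K := M) (L := K) hM (EM i)
  have hzK : IsTranscendenceBasis ℂ (fun j => algebraMap M K (z j)) := hz.algebraMap_comp
  have hEKd := Pool.Agent.Y172.lift_dual hEM hEK
  obtain ⟨y, E, hy, hE⟩ := Pool.Agent.Y172.exists_crd (k := ℂ) (K := L) hL
  choose E' hE' using fun i => Pool.Agent.Y172.exists_lift (k := ℂ) (K := L) (L := K) hL (E i)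
  have hEind : LinearIndependent K E' := lift_ind hE hE'
  -- the forms
  have hωE : ω EM ≠ 0 := by
    intro h0
    obtain ⟨D, hD⟩ := hω0
    apply hD
    rw [Pool.Agent.Y172.pluri_coord hz hEM hω D, h0, mul_zero]
  obtain ⟨W, hWdef⟩ : ∃ W : (Fin m → Fin N) → (Fin n → Derivation ℂ K K) → K,
    W = fun f => pull z ((∏ k, x (f k)) * ω EM) := ⟨_, rfl⟩
  have hWp : ∀ f, IsPluri 1 (W f) := fun f => by
    rw [hWdef]
    exact pull_pluri _ _
  have hWr : ∀ f (Q : Place ℂ K), Divisorial n Q → RegAt Q (W f) := by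
    intro f Q hQ D hD
    rw [hWdef]
    have hp : IsPluri 1 (fun D => (∏ k, x (f k)) * ω D) := by
      intro A D
      change (∏ k, x (f k)) * ω (fun i => ∑ j, A i j • D j) = _
      rw [hω A D]
      ring
    exact Pool.Agent.Y297.NT.t_Pull Pool.Agent.Y71.NT.t_abh M K n n hM hK z hz EM hEM
      (fun D => (∏ k, x (f k)) * ω D) hp (hreg f) Q hQ D hD
  obtain ⟨h, hhdef⟩ : ∃ h : K, h = pull z (ω EM) E' := ⟨_, rfl⟩
  have hh : h ≠ 0 := by
    rw [hhdef]
    exact mul_ne_zero (minor_ne hzK hEKd hEind) (by simpa using hωE)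
  have hWE : ∀ f, W f E' = (∏ k, algebraMap M K (x (f k))) * h := by
    intro f
    rw [hWdef, hhdef]
    simp only [pull]
    rw [map_mul, map_prod]
    ring
  have ht : ∀ f : Fin m → Fin N,
      Algebra.trace L K ((∏ k, algebraMap M K (x (f k))) * h) = 0 := by
    intro f
    rw [← hWE]
    exact Pool.Agent.Y692.NT.t_Tr L K n hL hpg (W f) (hWp f) (hWr f) E E' hE'
  have hj0' : algebraMap M K (x j0) = 1 := by rw [hj0, map_one]
  obtain ⟨hr, a, b, τ, hab, hτ, hli⟩ := Pool.Agent.Y614.NT.stLine Pool.Agent.Y153.NT.stCB L K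
    N m (fun j => algebraMap M K (x j)) j0 hj0' hgenL h hh ht hdeg
  refine ⟨hr, ?_⟩
  by_contra hcon
  push Not at hcon
  have hb : b ≠ 0 := fun h => hli.ne_zero 1 (by simpa using h)
  have hreg1 : ∀ P : Place ℂ M, Divisorial n P → RegAt P ω := by
    intro P hP
    have h1 := hreg (fun _ => j0) P hP
    simp only [hj0, Finset.prod_const_one, one_mul] at h1
    exact h1
  obtain ⟨G, hG0, hG⟩ := nly hNLG L K M n N n hM y hy ω hω hreg1 hω0 x hgen a b τ hb
    (fun j => hab j)
  obtain ⟨H, hH, hHG⟩ := hcut G hG0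
  have hxK : ∀ F : MvPolynomial (Fin N) ℂ, MvPolynomial.aeval (fun j => algebraMap M K (x j)) F =
      algebraMap M K (MvPolynomial.aeval x F) := fun F => MvPolynomial.aeval_algebraMap_apply K x F
  have hzero : ∀ F' ∈ Ideal.span {F : MvPolynomial (Fin N) ℂ | F.totalDegree ≤ c ∧
      MvPolynomial.aeval x F = 0}, restr F' a b = 0 := by
    intro F' hF'
    have h1 : Ideal.span {F : MvPolynomial (Fin N) ℂ | F.totalDegree ≤ c ∧
        MvPolynomial.aeval x F = 0} ≤
        RingHom.ker (MvPolynomial.aeval (Pool.Agent.Y184.NT.lin a b) :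
          MvPolynomial (Fin N) ℂ →ₐ[ℂ] Polynomial L) := by
      rw [Ideal.span_le]
      rintro F ⟨hFc, hF0⟩
      exact restr_zero hab hτ (by rw [hxK, hF0, map_zero])
        (((deg_restr F a b).trans hFc).trans_lt hcon)
    exact h1 hF'
  obtain ⟨p, hHG⟩ := hHG
  have h1 := hzero _ hHG
  unfold restr at h1 hG
  rw [map_pow] at h1
  replace h1 : MvPolynomial.aeval (Pool.Agent.Y184.NT.lin a b) (H * G) = 0 := by
    by_contra hne
    exact pow_ne_zero p hne h1
  rw [map_mul] at h1
  have h2 : MvPolynomial.aeval (Pool.Agent.Y184.NT.lin a b) H ≠ 0 := by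
    intro h0
    apply hH
    have h3 : MvPolynomial.aeval (fun j => algebraMap M K (x j)) H = 0 := by
      rw [← eval_lin (a := fun j => algebraMap L K (a j)) (b := fun j => algebraMap L K (b j))
        hab H, map_lin, h0, Polynomial.map_zero, Polynomial.eval_zero]
    rw [hxK] at h3
    exact (map_eq_zero _).1 h3
  exact (mul_eq_zero.1 h1).elim h2 hG

end

end Pool.Agent.H301_CI
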