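import Mathlib

/-!
Determinants of polynomial matrices, and families of independent gradients along a line.
-/

set_option autoImplicit false
set_option linter.unusedSectionVars false
set_option linter.unusedDecidableInType false
set_option linter.unusedFintypeInType false

open Polynomial

namespace Pool.Agent.H301_CI

theorem coeff_prod_le {κ K : Type} [Field K] (s : Finset κ) (f : κ → K[X]) (n : κ → ℕ)
    (h : ∀ i ∈ s, (f i).natDegree ≤ n i) :
    (∏ i ∈ s, f i).natDegree ≤ ∑ i ∈ s, n i ∧
      (∏ i ∈ s, f i).coeff (∑ i ∈ s, n i) = ∏ i ∈ s, (f i).coeff (n i) := by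
  classical
  induction s using Finset.induction_on with
  | empty => simp
  | insert a s ha ih =>
    have h1 := h a (Finset.mem_insert_self a s)
    obtain ⟨h2, h3⟩ := ih fun i hi => h i (Finset.mem_insert_of_mem hi)
    rw [Finset.prod_insert ha, Finset.sum_insert ha, Finset.prod_insert ha]
    exact ⟨natDegree_mul_le_of_le h1 h2, by rw [coeff_mul_add_eq_of_natDegree_le h1 h2, h3]⟩

theorem det_deg {κ K : Type} [Field K] [Fintype κ] [DecidableEq κ] (M : Matrix κ κ K[X])
    (n : κ → ℕ) (h : ∀ i j, (M i j).natDegree ≤ n i) :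
    M.det.natDegree ≤ ∑ i, n i ∧
      M.det.coeff (∑ i, n i) = (Matrix.of fun i j => (M i j).coeff (n i)).det := by
  have key : ∀ σ : Equiv.Perm κ, (∏ i, M (σ i) i).natDegree ≤ ∑ i, n i ∧
      (∏ i, M (σ i) i).coeff (∑ i, n i) = ∏ i, (M (σ i) i).coeff (n (σ i)) := by
    intro σ
    have h1 := coeff_prod_le Finset.univ (fun i => M (σ i) i) (fun i => n (σ i)) fun i _ => h _ _
    rw [Equiv.sum_comp σ n] at h1
    exact h1
  constructor
  · rw [Matrix.det_apply']
    refine natDegree_sum_le_of_forall_le _ _ fun σ _ => ?_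
    refine le_trans natDegree_mul_le ?_
    rw [natDegree_intCast, zero_add]
    exact (key σ).1
  · rw [Matrix.det_apply', Matrix.det_apply', finsetSum_coeff]
    refine Finset.sum_congr rfl fun σ _ => ?_
    rw [coeff_intCast_mul, (key σ).2]
    rfl

section

variable {κ ν ι : Type} [Fintype κ] [DecidableEq κ] [Fintype ν] [DecidableEq ν] [Fintype ι]
  [DecidableEq ι]

/-- the square matrix with the rows `C k` and `Q j`; `e` orders the columns -/
def rmat {R : Type} (e : κ ⊕ ν ≃ ι) (C : κ → ι → R) (Q : ν → ι → R) :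
    Matrix (κ ⊕ ν) (κ ⊕ ν) R :=
  Matrix.of fun a b => Sum.elim (fun k => C k (e b)) (fun j => Q j (e b)) a

/-- the Jacobian matrix -/
def jm {R : Type} (e : κ ⊕ ν ≃ ι) (J : κ → ι → R) : Matrix (κ ⊕ ν) κ R :=
  Matrix.of fun b k => J k (e b)

theorem rmat_mul {R : Type} [CommRing R] {e : κ ⊕ ν ≃ ι} {C J : κ → ι → R} {Q : ν → ι → R}
    {A : Matrix κ κ R} (hC : ∀ k k', ∑ i, J k i * C k' i = A k' k)
    (hQ : ∀ k j, ∑ i, J k i * Q j i = 0) (a : κ ⊕ ν) (k : κ) :
    (rmat e C Q * jm e J) a k = Sum.elim (fun k' => A k' k) (fun _ => 0) a := by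
  have h1 : ∀ v : ι → R, ∑ b, v (e b) * J k (e b) = ∑ i, J k i * v i := by
    intro v
    rw [← e.sum_comp]
    exact Finset.sum_congr rfl fun b _ => mul_comm _ _
  rw [Matrix.mul_apply]
  cases a with
  | inl k' =>
    have h2 : ∑ b, rmat e C Q (Sum.inl k') b * jm e J b k = ∑ b, C k' (e b) * J k (e b) := rfl
    rw [h2, h1, hC]
    rfl
  | inr j =>
    have h2 : ∑ b, rmat e C Q (Sum.inr j) b * jm e J b k = ∑ b, Q j (e b) * J k (e b) := rfl
    rw [h2, h1, hQ]
    rfl

/-- the dependence of the determinant on the rows `C` -/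
theorem det_dual {F : Type} [Field F] {e : κ ⊕ ν ≃ ι} {C C' J : κ → ι → F} {Q : ν → ι → F}
    {A : Matrix κ κ F} (hC : ∀ k k', ∑ i, J k i * C k' i = (1 : Matrix κ κ F) k' k)
    (hC' : ∀ k k', ∑ i, J k i * C' k' i = A k' k)
    (hQ : ∀ k j, ∑ i, J k i * Q j i = 0) (hne : (rmat e C Q).det ≠ 0) :
    (rmat e C' Q).det = A.det * (rmat e C Q).det := by
  have hu : IsUnit (rmat e C Q).det := isUnit_iff_ne_zero.2 hne
  obtain ⟨T, hT⟩ : ∃ T, T = rmat e C' Q * (rmat e C Q)⁻¹ := ⟨_, rfl⟩
  have h1 : rmat e C' Q = T * rmat e C Q := by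
    rw [hT, Matrix.mul_assoc, Matrix.nonsing_inv_mul _ hu, Matrix.mul_one]
  have h2 : ∀ a k, T a (Sum.inl k) = Sum.elim (fun k' => A k' k) (fun _ => 0) a := by
    intro a k
    rw [← rmat_mul (e := e) hC' hQ a k, h1, Matrix.mul_assoc, Matrix.mul_apply]
    rw [Finset.sum_congr rfl fun b _ => by rw [rmat_mul (e := e) hC hQ b k]]
    rw [Fintype.sum_sum_type]
    simp [Matrix.one_apply]
  have h3 : ∀ j b, T (Sum.inr j) b = (1 : Matrix (κ ⊕ ν) (κ ⊕ ν) F) (Sum.inr j) b := by
    intro j b
    rw [hT, Matrix.mul_apply]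
    have h4 : (1 : Matrix (κ ⊕ ν) (κ ⊕ ν) F) (Sum.inr j) b =
        (rmat e C Q * (rmat e C Q)⁻¹) (Sum.inr j) b := by
      rw [Matrix.mul_nonsing_inv _ hu]
    rw [h4, Matrix.mul_apply]
    rfl
  have h5 : T = Matrix.fromBlocks A T.toBlocks₁₂ 0 1 := by
    rw [← Matrix.fromBlocks_toBlocks T]
    congr 1
    · ext k k'
      rw [Matrix.toBlocks₁₁, Matrix.of_apply, h2]
      rfl
    · ext j k
      rw [Matrix.toBlocks₂₁, Matrix.of_apply, h2]
      rfl
    · ext j j'
      rw [Matrix.toBlocks₂₂, Matrix.of_apply, h3, Matrix.one_apply, Matrix.one_apply]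
      by_cases h : j = j'
      · rw [if_pos h, if_pos (by rw [h])]
      · rw [if_neg h, if_neg fun h' => h (Sum.inr_injective h')]
  rw [h1, Matrix.det_mul, h5, Matrix.det_fromBlocks_zero₂₁, Matrix.det_one, mul_one]

theorem sum_ite_row {R : Type} [CommRing R] (g : ι → R) (c : κ → ι) (v : κ → R) :
    ∑ i, g i * (∑ l, if c l = i then v l else 0) = ∑ l, g (c l) * v l := by
  simp only [Finset.mul_sum]
  rw [Finset.sum_comm]
  refine Finset.sum_congr rfl fun l _ => ?_
  rw [Finset.sum_eq_single (c l)]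
  · rw [if_pos rfl]
  · intro i _ hi
    rw [if_neg (Ne.symm hi), mul_zero]
  · intro h
    exact absurd (Finset.mem_univ _) h

/-- the dual rows -/
def drow {R : Type} [CommRing R] (J : κ → ι → R) (B : (κ → ι) → R) (k' : κ) (i : ι) : R :=
  ∑ c, B c * ∑ l, if c l = i then
    (Matrix.of fun k k' => J k (c k') : Matrix κ κ R).adjugate l k' else 0

theorem drow_spec {R : Type} [CommRing R] {J : κ → ι → R} {B : (κ → ι) → R}
    (hB : ∑ c, B c * (Matrix.of fun k k' => J k (c k') : Matrix κ κ R).det = 1) (k k' : κ) :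
    ∑ i, J k i * drow J B k' i = (1 : Matrix κ κ R) k' k := by
  have h1 : ∑ i, J k i * drow J B k' i = ∑ c, B c * ∑ i, J k i * (∑ l, if c l = i then
      (Matrix.of fun k k' => J k (c k') : Matrix κ κ R).adjugate l k' else 0) := by
    simp only [drow, Finset.mul_sum]
    rw [Finset.sum_comm]
    refine Finset.sum_congr rfl fun c _ => Finset.sum_congr rfl fun i _ =>
      Finset.sum_congr rfl fun l _ => ?_
    ring
  rw [h1]
  have h2 : ∀ c : κ → ι, ∑ i, J k i * (∑ l, if c l = i then
      (Matrix.of fun k k' => J k (c k') : Matrix κ κ R).adjugate l k' else 0) =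
      (Matrix.of fun k k' => J k (c k') : Matrix κ κ R).det * (1 : Matrix κ κ R) k' k := by
    intro c
    rw [sum_ite_row]
    have h3 := congrFun (congrFun (Matrix.mul_adjugate
      (Matrix.of fun k k' => J k (c k') : Matrix κ κ R)) k) k'
    rw [Matrix.mul_apply, Matrix.smul_apply, smul_eq_mul] at h3
    rw [← Matrix.transpose_apply (1 : Matrix κ κ R), Matrix.transpose_one, ← h3]
    rfl
  rw [Finset.sum_congr rfl fun c _ => by rw [h2 c, ← mul_assoc], ← Finset.sum_mul, hB, one_mul]

/-- **Vector fields of degree one along a line.** -/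
theorem nl_core {K : Type} [Field K] (e : κ ⊕ ν ≃ ι) {J : κ → ι → K[X]} {Q : ν → ι → K[X]}
    {n : κ → ℕ} (hJ : ∀ k i, (J k i).natDegree ≤ n k) (hQ1 : ∀ j i, (Q j i).natDegree ≤ 1)
    (hQ : ∀ k j, ∑ i, J k i * Q j i = 0) {B : (κ → ι) → K[X]}
    (hB : ∑ c, B c * (Matrix.of fun k k' => J k (c k') : Matrix κ κ K[X]).det = 1)
    {c0 : κ → ι} (hc0 : (Matrix.of fun k k' => (J k (c0 k')).coeff (n k) : Matrix κ κ K).det ≠ 0)
    (hs : Fintype.card ν < ∑ k, n k) (τ : K) {C : κ → ι → K}
    (hC : ∀ k k', ∑ i, (J k i).eval τ * C k' i = (1 : Matrix κ κ K) k' k) :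
    (rmat e C fun j i => (Q j i).eval τ).det = 0 := by
  by_contra hne
  -- the dual rows over the polynomial ring
  obtain ⟨C0, hC0⟩ : ∃ C0, C0 = drow J B := ⟨_, rfl⟩
  have hC01 : ∀ k k', ∑ i, J k i * C0 k' i = (1 : Matrix κ κ K[X]) k' k := fun k k' => by
    rw [hC0]
    exact drow_spec hB k k'
  -- the determinant at `τ`
  have hev : (rmat e (fun k i => (C0 k i).eval τ) fun j i => (Q j i).eval τ).det ≠ 0 := by
    have h1 := det_dual (e := e) (A := 1) hC (C' := fun k i => (C0 k i).eval τ)
      (fun k k' => by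
        have h2 := congrArg (eval τ) (hC01 k k')
        rw [eval_finsetSum] at h2
        simp only [eval_mul] at h2
        rw [h2, Matrix.one_apply, Matrix.one_apply]
        by_cases h : k' = k
        · rw [if_pos h, if_pos h, eval_one]
        · rw [if_neg h, if_neg h, eval_zero])
      (fun k j => by
        have h2 := congrArg (eval τ) (hQ k j)
        rw [eval_finsetSum, eval_zero] at h2
        simpa only [eval_mul] using h2) hne
    rw [h1, Matrix.det_one, one_mul]
    exact hne
  have hρ : (rmat e C0 Q).det ≠ 0 := by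
    intro h0
    apply hev
    have h1 : (rmat e (fun k i => (C0 k i).eval τ) fun j i => (Q j i).eval τ) =
        (evalRingHom τ).mapMatrix (rmat e C0 Q) := by
      ext a b
      cases a <;> rfl
    rw [h1, ← RingHom.map_det, h0, map_zero]
  -- the minors
  obtain ⟨C1, hC1⟩ : ∃ C1 : κ → ι → K[X], C1 = fun k' i => if c0 k' = i then 1 else 0 := ⟨_, rfl⟩
  have key : (rmat e C1 Q).det =
      (Matrix.of fun k k' => J k (c0 k') : Matrix κ κ K[X]).det * (rmat e C0 Q).det := by
    have hinj : Function.Injective (algebraMap K[X] (FractionRing K[X])) :=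
      IsFractionRing.injective _ _
    apply hinj
    have hmap : ∀ C' : κ → ι → K[X], algebraMap K[X] (FractionRing K[X]) (rmat e C' Q).det =
        (rmat e (fun k i => algebraMap K[X] (FractionRing K[X]) (C' k i))
          fun j i => algebraMap K[X] (FractionRing K[X]) (Q j i)).det := by
      intro C'
      rw [RingHom.map_det]
      congr 1
      ext a b
      cases a <;> rfl
    rw [map_mul, hmap, hmap]
    rw [det_dual (J := fun k i => algebraMap K[X] (FractionRing K[X]) (J k i))
      (C := fun k i => algebraMap K[X] (FractionRing K[X]) (C0 k i))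
      (A := (Matrix.of fun k' k => algebraMap K[X] (FractionRing K[X]) (J k (c0 k')) :
        Matrix κ κ (FractionRing K[X])))]
    · congr 1
      rw [RingHom.map_det, ← Matrix.det_transpose]
      rfl
    · intro k k'
      have h2 := congrArg (algebraMap K[X] (FractionRing K[X])) (hC01 k k')
      rw [map_sum] at h2
      simp only [map_mul] at h2
      rw [h2, Matrix.one_apply, Matrix.one_apply]
      by_cases h : k' = k
      · rw [if_pos h, if_pos h, map_one]
      · rw [if_neg h, if_neg h, map_zero]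
    · intro k k'
      have h5 : ∀ k' i, C1 k' i = if c0 k' = i then 1 else 0 := fun _ _ => by rw [hC1]
      rw [Matrix.of_apply]
      rw [Finset.sum_eq_single (c0 k')]
      · rw [h5, if_pos rfl, map_one, mul_one]
      · intro i _ hi
        rw [h5, if_neg (Ne.symm hi), map_zero, mul_zero]
      · intro h
        exact absurd (Finset.mem_univ _) h
    · intro k j
      have h2 := congrArg (algebraMap K[X] (FractionRing K[X])) (hQ k j)
      rw [map_sum, map_zero] at h2
      simpa only [map_mul] using h2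
    · rw [← hmap]
      exact fun h0 => hρ (hinj (by rw [h0, map_zero]))
  -- the degrees
  have hμ : (Matrix.of fun k k' => J k (c0 k') : Matrix κ κ K[X]).det.coeff (∑ k, n k) ≠ 0 := by
    rw [(det_deg (Matrix.of fun k k' => J k (c0 k') : Matrix κ κ K[X]) n
      fun k k' => hJ k (c0 k')).2]
    exact hc0
  have hμ0 : (Matrix.of fun k k' => J k (c0 k') : Matrix κ κ K[X]).det ≠ 0 := by
    intro h0
    rw [h0, coeff_zero] at hμ
    exact hμ rfl
  have h1 := congrArg natDegree key
  rw [natDegree_mul hμ0 hρ] at h1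
  have h2 := le_natDegree_of_ne_zero hμ
  have h3 := (det_deg (rmat e C1 Q) (Sum.elim (fun _ => 0) fun _ => 1) (fun a b => by
    cases a with
    | inl k =>
      change (C1 k (e b)).natDegree ≤ 0
      rw [hC1]
      by_cases h : c0 k = e b
      · simp only [if_pos h, natDegree_one, le_refl]
      · simp only [if_neg h, natDegree_zero, le_refl]
    | inr j => exact hQ1 j (e b))).1
  rw [Fintype.sum_sum_type] at h3
  simp only [Sum.elim_inl, Sum.elim_inr, Finset.sum_const_zero, zero_add, Finset.sum_const,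
    Finset.card_univ, smul_eq_mul, mul_one] at h3
  omega

end

end Pool.Agent.H301_CI
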