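import Pool.Agent.H301_CI.Line
import Pool.Agent.R882.CReg

/-!
Smooth complete intersections in projective space: the canonical forms which are given by residues
are regular, and not zero.
-/

set_option autoImplicit false
set_option linter.unusedSectionVars false
set_option linter.unusedDecidableInType false
set_option linter.unusedFintypeInType false

open FF MvPolynomial Pool.Agent.W603.LV Pool.Agent.W602.GT Pool.Agent.Y184.NT
open Pool.Agent.R882.CI (crow crow_spec crow_reg reg_aeval der_aeval)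

namespace Pool.Agent.H301_CI

section

variable {κ : Type} [Fintype κ] [DecidableEq κ] {N n : ℕ} {K : Type} [Field K]

/-- a change of the last rows -/
theorem det_rows (e : κ ⊕ Fin (n + 1) ≃ Fin N) (C : κ → Fin N → K) (u : K) (w : Fin n → K)
    (A : Matrix (Fin n) (Fin n) K) (x : Fin N → K) (R : Fin n → Fin N → K) :
    (rmat e C (Fin.cons (fun i => u * x i) fun j i => w j * x i + ∑ j', A j j' * R j' i :
      Fin (n + 1) → Fin N → K)).det =
      u * A.det * (rmat e C (Fin.cons x R : Fin (n + 1) → Fin N → K)).det := by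
  obtain ⟨T, hT⟩ : ∃ T : Matrix (Fin (n + 1)) (Fin (n + 1)) K, T = Matrix.of
    (Fin.cons (Fin.cons u fun _ => 0) fun j => Fin.cons (w j) (A j) :
      Fin (n + 1) → Fin (n + 1) → K) := ⟨_, rfl⟩
  have h : rmat e C (Fin.cons (fun i => u * x i) fun j i => w j * x i + ∑ j', A j j' * R j' i :
      Fin (n + 1) → Fin N → K) =
      Matrix.fromBlocks (1 : Matrix κ κ K) 0 0 T *
        rmat e C (Fin.cons x R : Fin (n + 1) → Fin N → K) := by
    ext a b
    rw [Matrix.mul_apply, Fintype.sum_sum_type]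
    cases a with
    | inl k =>
      simp [rmat, Matrix.one_apply]
    | inr j =>
      rw [hT]
      refine Fin.cases ?_ (fun j => ?_) j
      · simp [rmat, Fin.sum_univ_succ]
      · simp [rmat, Fin.sum_univ_succ]
  have hTd : T.det = u * A.det := by
    rw [Matrix.det_succ_row_zero, Fin.sum_univ_succ, Finset.sum_eq_zero fun i _ => ?_]
    · have h1 : T.submatrix Fin.succ (Fin.succAbove 0) = A := by
        ext i j
        rw [hT, Matrix.submatrix_apply, Fin.succAbove_zero]
        rfl
      have h2 : T 0 0 = u := by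
        rw [hT]
        rfl
      rw [h1, h2]
      simp
    · have h2 : T 0 i.succ = 0 := by
        rw [hT]
        rfl
      rw [h2, mul_zero, zero_mul]
  rw [h, Matrix.det_mul, Matrix.det_fromBlocks_zero₂₁, Matrix.det_one, one_mul, hTd]

/-- multiplication of the first rows -/
theorem det_scale (e : κ ⊕ Fin n ≃ Fin N) (C : κ → Fin N → K) (R : Fin n → Fin N → K)
    (ν : κ → K) : (rmat e (fun k i => ν k * C k i) R).det = (∏ k, ν k) * (rmat e C R).det := by
  have h : rmat e (fun k i => ν k * C k i) R =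
      Matrix.diagonal (Sum.elim ν fun _ => 1) * rmat e C R := by
    ext a b
    rw [Matrix.diagonal_mul]
    cases a with
    | inl k => rfl
    | inr j =>
      simp only [rmat, Matrix.of_apply, Sum.elim_inr]
      ring
  rw [h, Matrix.det_mul, Matrix.det_diagonal, Fintype.prod_sum_type]
  simp only [Sum.elim_inl, Sum.elim_inr, Finset.prod_const_one, mul_one]

theorem det_same {e : κ ⊕ Fin n ≃ Fin N} {C C' J : κ → Fin N → K} {Q : Fin n → Fin N → K}
    (hC : ∀ k k', ∑ i, J k i * C k' i = (1 : Matrix κ κ K) k' k)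
    (hC' : ∀ k k', ∑ i, J k i * C' k' i = (1 : Matrix κ κ K) k' k)
    (hQ : ∀ k j, ∑ i, J k i * Q j i = 0) : (rmat e C Q).det = (rmat e C' Q).det := by
  by_cases h : (rmat e C Q).det = 0
  · by_cases h' : (rmat e C' Q).det = 0
    · rw [h, h']
    · have h1 := det_dual (e := e) hC' hC hQ h'
      rw [Matrix.det_one, one_mul] at h1
      exact h1
  · have h1 := det_dual (e := e) hC hC' hQ h
    rw [Matrix.det_one, one_mul] at h1
    exact h1.symm

variable [Algebra ℂ K]

/-- the rows `x` and `D j x` -/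
def erow (x : Fin N → K) (D : Fin n → Derivation ℂ K K) : Fin (n + 1) → Fin N → K :=
  Fin.cons x fun j i => D j (x i)

/-- the canonical form -/
theorem form_pluri (e : κ ⊕ Fin (n + 1) ≃ Fin N) (C : κ → Fin N → K) (x : Fin N → K) :
    IsPluri 1 (fun D : Fin n → Derivation ℂ K K => (rmat e C (erow x D)).det) := by
  intro M D
  change (rmat e C (Fin.cons x fun j i => (∑ j', M j j' • D j') (x i) :
    Fin (n + 1) → Fin N → K)).det = _
  have h1 : (Fin.cons x fun (j : Fin n) (i : Fin N) => (∑ j', M j j' • D j') (x i) :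
      Fin (n + 1) → Fin N → K) = Fin.cons (fun i => (1 : K) * x i)
        fun j i => (0 : K) * x i + ∑ j', M j j' * D j' (x i) := by
    congr 1
    · funext i
      rw [one_mul]
    · funext j i
      rw [zero_mul, zero_add]
      exact Pool.Agent.Y988.NT.sum_der (M j) D (x i)
  rw [h1, det_rows e C 1 (fun _ => 0) M x fun j i => D j (x i), one_mul, pow_one]
  rfl

theorem hom_scale {G : MvPolynomial (Fin N) ℂ} {c : ℕ} (hG : G.IsHomogeneous c) (u : K)
    (x : Fin N → K) : aeval (fun i => u * x i) G = u ^ c * aeval x G := by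
  conv_lhs => rw [G.as_sum]
  conv_rhs => rw [G.as_sum]
  rw [map_sum, map_sum, Finset.mul_sum]
  refine Finset.sum_congr rfl fun v hv => ?_
  have h3 : ∑ i, v i = c := by
    have h4 := hG (MvPolynomial.mem_support_iff.1 hv)
    rw [← h4, Finsupp.weight_apply, Finsupp.sum_fintype _ _ (fun i => by simp)]
    simp
  rw [aeval_monomial, aeval_monomial, Finsupp.prod_fintype _ _ (fun i => by simp),
    Finsupp.prod_fintype _ _ (fun i => by simp)]
  simp only [mul_pow]
  rw [Finset.prod_mul_distrib, Finset.prod_pow_eq_pow_sum, h3]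
  ring

theorem euler {G : MvPolynomial (Fin N) ℂ} {c : ℕ} (hG : G.IsHomogeneous c) {x : Fin N → K}
    (h0 : aeval x G = 0) : ∑ i, aeval x (pderiv i G) * x i = 0 := by
  have h1 := congrArg (aeval x) hG.sum_X_mul_pderiv
  rw [map_sum, map_nsmul, h0, smul_zero] at h1
  rw [← h1]
  refine Finset.sum_congr rfl fun i _ => ?_
  rw [map_mul, aeval_X, mul_comm]

theorem kernel {F : κ → MvPolynomial (Fin N) ℂ} {d : κ → ℕ} (hF : ∀ k, (F k).IsHomogeneous (d k))
    {x : Fin N → K} (hx : ∀ k, aeval x (F k) = 0) (D : Fin n → Derivation ℂ K K) (k : κ)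
    (j : Fin (n + 1)) : ∑ i, aeval x (pderiv i (F k)) * erow x D j i = 0 := by
  unfold erow
  refine Fin.cases ?_ (fun j => ?_) j
  · simp only [Fin.cons_zero]
    exact euler (hF k) (hx k)
  · simp only [Fin.cons_succ]
    rw [← der_aeval, hx, map_zero]

/-- an invertible minor at a place -/
theorem exists_minor_unit (P : Place ℂ K) {F : κ → MvPolynomial (Fin N) ℂ} (hs : SmoothCI F)
    {Z : Fin N → K} (hZ : ∀ k, aeval Z (F k) = 0) (hr : ∀ i, P.Reg (Z i)) {i1 : Fin N}
    (hi1 : Z i1 = 1) :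
    ∃ c : κ → Fin N,
      (Matrix.of fun k k' => aeval Z (pderiv (c k') (F k)) : Matrix κ κ K).det ≠ 0 ∧
      P.ord (Matrix.of fun k k' => aeval Z (pderiv (c k') (F k)) : Matrix κ κ K).det = 0 := by
  obtain ⟨M, B, h⟩ := cert_at hs i1 (A := K) (Z := Z) hZ
  rw [hi1, one_pow] at h
  by_contra hcon
  push Not at hcon
  have h3 : ∀ c : κ → Fin N, Ge P 1
      (Matrix.of fun k k' => aeval Z (pderiv (c k') (F k)) : Matrix κ κ K).det := by
    intro c
    by_cases h0 : (Matrix.of fun k k' => aeval Z (pderiv (c k') (F k)) : Matrix κ κ K).det = 0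
    · exact Or.inl h0
    · right
      have h2 := hcon c h0
      have h3 := (Pool.Agent.Y988.NT.reg_det P
        (Matrix.of fun k k' => aeval Z (pderiv (c k') (F k)) : Matrix κ κ K) (fun k k' =>
          reg_aeval hr _)).resolve_left h0
      omega
  have h4 : Ge P 1 (1 : K) := by
    rw [h]
    refine Ge.sum _ _ fun c _ => ?_
    have h6 := (show Ge P 0 (aeval Z (B c)) from reg_aeval hr (B c)).mul (h3 c)
    simpa using h6
  rcases h4 with h4 | h4
  · exact one_ne_zero h4
  · rw [P.ord_one] at h4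
    omega

/-- a coordinate of minimal order -/
theorem exists_coord (P : Place ℂ K) {x : Fin N → K} {j0 : Fin N} (hj0 : x j0 = 1) :
    ∃ i1, x i1 ≠ 0 ∧ ∀ i, P.Reg ((x i1)⁻¹ * x i) := by
  classical
  obtain ⟨i1, hi1, hmin⟩ := Finset.exists_min_image (Finset.univ.filter fun i => x i ≠ 0)
    (fun i => P.ord (x i)) ⟨j0, by simp [hj0]⟩
  rw [Finset.mem_filter] at hi1
  refine ⟨i1, hi1.2, fun i => ?_⟩
  by_cases h0 : x i = 0
  · rw [h0, mul_zero]
    exact P.reg_zero
  · right
    have h1 := hmin i (Finset.mem_filter.2 ⟨Finset.mem_univ _, h0⟩)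
    rw [P.ord_mul (inv_ne_zero hi1.2) h0, P.ord_inv]
    omega

/-- **The residue forms are regular.** -/
theorem form_reg {F : κ → MvPolynomial (Fin N) ℂ} {d : κ → ℕ}
    (hF : ∀ k, (F k).IsHomogeneous (d k)) (hs : SmoothCI F) (e : κ ⊕ Fin (n + 1) ≃ Fin N)
    {x : Fin N → K} {j0 : Fin N} (hj0 : x j0 = 1) (hx : ∀ k, aeval x (F k) = 0)
    {C : κ → Fin N → K}
    (hC : ∀ k k', ∑ i, aeval x (pderiv i (F k)) * C k' i = (1 : Matrix κ κ K) k' k) {m : ℕ}
    (hm : m + (n + 1) ≤ ∑ k, (d k - 1)) (f : Fin m → Fin N) (P : Place ℂ K) :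
    RegAt P (fun D : Fin n → Derivation ℂ K K =>
      (∏ k, x (f k)) * (rmat e C (erow x D)).det) := by
  intro D hD
  obtain ⟨i1, hi1, hyr⟩ := exists_coord P hj0
  obtain ⟨u, hu⟩ : ∃ u, u = (x i1)⁻¹ := ⟨_, rfl⟩
  rw [← hu] at hyr
  have hu0 : u ≠ 0 := by
    rw [hu]
    exact inv_ne_zero hi1
  obtain ⟨y, hy⟩ : ∃ y : Fin N → K, y = fun i => u * x i := ⟨_, rfl⟩
  have hyr' : ∀ i, P.Reg (y i) := fun i => by
    rw [hy]
    exact hyr i
  have hy1 : y i1 = 1 := by
    rw [hy, hu]
    exact inv_mul_cancel₀ hi1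
  have hy0 : ∀ k, aeval y (F k) = 0 := fun k => by
    rw [hy, hom_scale (hF k), hx, mul_zero]
  have hureg : P.Reg u := by
    have h1 := hyr j0
    rwa [hj0, mul_one] at h1
  obtain ⟨c, hc1, hc2⟩ := exists_minor_unit P hs hy0 hyr' hy1
  obtain ⟨J, hJ⟩ : ∃ J : κ → Fin N → K, J = fun k i => aeval y (pderiv i (F k)) := ⟨_, rfl⟩
  have hcJ : (Matrix.of fun k k' => J k (c k') : Matrix κ κ K).det ≠ 0 := by
    rw [hJ]
    exact hc1
  have hcJ0 : P.ord (Matrix.of fun k k' => J k (c k') : Matrix κ κ K).det = 0 := by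
    rw [hJ]
    exact hc2
  have hJr : ∀ k i, P.Reg (J k i) := fun k i => by
    rw [hJ]
    exact reg_aeval hyr' _
  have hC1 : ∀ k k', ∑ i, J k i * ((u ^ (d k' - 1))⁻¹ * C k' i) = (1 : Matrix κ κ K) k' k := by
    intro k k'
    have h1 : ∑ i, J k i * ((u ^ (d k' - 1))⁻¹ * C k' i) =
        (u ^ (d k' - 1))⁻¹ * u ^ (d k - 1) * ∑ i, aeval x (pderiv i (F k)) * C k' i := by
      rw [Finset.mul_sum]
      refine Finset.sum_congr rfl fun i _ => ?_
      have h2 := hom_scale ((hF k).pderiv (i := i)) u x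
      rw [hJ, hy]
      simp only
      rw [h2]
      ring
    rw [h1, hC, Matrix.one_apply]
    by_cases h : k' = k
    · rw [if_pos h, h, mul_one, inv_mul_cancel₀ (pow_ne_zero _ hu0)]
    · rw [if_neg h, mul_zero]
  have hC2 : ∀ k k', ∑ i, J k i * crow J c k' i = (1 : Matrix κ κ K) k' k := by
    intro k k'
    rw [crow_spec hcJ, Matrix.one_apply]
    by_cases h : k = k'
    · rw [if_pos h, if_pos h.symm]
    · rw [if_neg h, if_neg (Ne.symm h)]
  have hQ : ∀ k j, ∑ i, J k i * erow y D j i = 0 := by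
    intro k j
    rw [hJ]
    exact kernel hF hy0 D k j
  have h1 := det_same (e := e) hC1 hC2 hQ
  rw [det_scale] at h1
  have h2 : (rmat e C (erow y D)).det = u * u ^ n * (rmat e C (erow x D)).det := by
    have h3 : erow y D = (Fin.cons (fun i => u * x i) fun j i => D j u * x i +
        ∑ j', (u • (1 : Matrix (Fin n) (Fin n) K)) j j' * D j' (x i) :
          Fin (n + 1) → Fin N → K) := by
      unfold erow
      congr 1
      funext j i
      rw [hy]
      simp only
      rw [Derivation.leibniz, smul_eq_mul, smul_eq_mul, Finset.sum_eq_single j]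
      · rw [Matrix.smul_apply, Matrix.one_apply_eq, smul_eq_mul]
        ring
      · intro b _ hb
        rw [Matrix.smul_apply, Matrix.one_apply_ne (Ne.symm hb), smul_zero, zero_mul]
      · intro h
        exact absurd (Finset.mem_univ _) h
    rw [h3, det_rows e C u (fun j => D j u) _ x fun j i => D j (x i), Matrix.det_smul,
      Matrix.det_one, mul_one, Fintype.card_fin]
    rfl
  rw [h2] at h1
  obtain ⟨q, hq⟩ : ∃ q, ∑ k, (d k - 1) = m + (n + 1) + q := ⟨_, (Nat.add_sub_cancel' hm).symm⟩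
  have h3 : ∏ k, (u ^ (d k - 1))⁻¹ = (u ^ (m + (n + 1) + q))⁻¹ := by
    rw [Finset.prod_inv_distrib, Finset.prod_pow_eq_pow_sum, hq]
  rw [h3] at h1
  have h4 : (rmat e C (erow x D)).det = u ^ m * u ^ q * (rmat e (crow J c) (erow y D)).det := by
    rw [← h1]
    have h5 : u ^ (m + (n + 1) + q) ≠ 0 := pow_ne_zero _ hu0
    field_simp
    ring
  change P.Reg ((∏ k, x (f k)) * (rmat e C (erow x D)).det)
  have h5 : (∏ k, x (f k)) * (rmat e C (erow x D)).det =
      (∏ k, y (f k)) * u ^ q * (rmat e (crow J c) (erow y D)).det := by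
    rw [h4, hy]
    simp only
    rw [Finset.prod_mul_distrib, Finset.prod_const, Finset.card_univ, Fintype.card_fin]
    ring
  rw [h5]
  refine P.reg_mul (P.reg_mul ?_ ?_) (Pool.Agent.Y988.NT.reg_det P _ fun a b => ?_)
  · exact P.O.prod_mem fun k _ => hyr' (f k)
  · exact P.O.pow_mem hureg _
  · cases a with
    | inl k => exact crow_reg P hcJ hcJ0 hJr k (e b)
    | inr j =>
      change P.Reg (erow y D j (e b))
      unfold erow
      refine Fin.cases ?_ (fun j => ?_) j
      · exact hyr' _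
      · exact hD j _ (hyr' _)

/-- the residue forms are not zero -/
theorem form_ne {F : κ → MvPolynomial (Fin N) ℂ} {d : κ → ℕ}
    (hF : ∀ k, (F k).IsHomogeneous (d k)) {e : κ ⊕ Fin (n + 1) ≃ Fin N}
    {x : Fin N → K} {j0 : Fin N} (hj0 : x j0 = 1) (hx : ∀ k, aeval x (F k) = 0)
    {C : κ → Fin N → K}
    (hC : ∀ k k', ∑ i, aeval x (pderiv i (F k)) * C k' i = (1 : Matrix κ κ K) k' k)
    (hder : ∀ D : Derivation ℂ K K, (∀ j, D (x j) = 0) → D = 0) {D : Fin n → Derivation ℂ K K}
    (hD : LinearIndependent K D) : (rmat e C (erow x D)).det ≠ 0 := by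
  intro hdet
  rw [← Matrix.exists_vecMul_eq_zero_iff] at hdet
  obtain ⟨v, hv0, hv⟩ := hdet
  have h1 : ∀ i, ∑ k, v (Sum.inl k) * C k i + ∑ j, v (Sum.inr j) * erow x D j i = 0 := by
    intro i
    have h2 := congrFun hv (e.symm i)
    rw [Matrix.vecMul, dotProduct, Fintype.sum_sum_type] at h2
    simpa [rmat] using h2
  have h2 : ∀ k, v (Sum.inl k) = 0 := by
    intro k
    have h3 : ∑ i, aeval x (pderiv i (F k)) * (∑ k, v (Sum.inl k) * C k i +
        ∑ j, v (Sum.inr j) * erow x D j i) = v (Sum.inl k) := by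
      simp only [mul_add, Finset.sum_add_distrib, Finset.mul_sum]
      rw [Finset.sum_comm, Finset.sum_comm (s := Finset.univ)
        (t := (Finset.univ : Finset (Fin (n + 1))))]
      have h5 : ∀ j, ∑ i, aeval x (pderiv i (F k)) * (v (Sum.inr j) * erow x D j i) = 0 := by
        intro j
        rw [← mul_zero (v (Sum.inr j)), ← kernel hF hx D k j, Finset.mul_sum]
        exact Finset.sum_congr rfl fun i _ => by ring
      have h6 : ∀ k', ∑ i, aeval x (pderiv i (F k)) * (v (Sum.inl k') * C k' i) =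
          if k' = k then v (Sum.inl k') else 0 := by
        intro k'
        have h7 : ∑ i, aeval x (pderiv i (F k)) * (v (Sum.inl k') * C k' i) =
            v (Sum.inl k') * ∑ i, aeval x (pderiv i (F k)) * C k' i := by
          rw [Finset.mul_sum]
          exact Finset.sum_congr rfl fun i _ => by ring
        rw [h7, hC, Matrix.one_apply]
        by_cases h : k' = k
        · rw [if_pos h, if_pos h, mul_one]
        · rw [if_neg h, if_neg h, mul_zero]
      rw [Finset.sum_congr rfl fun j _ => h5 j, Finset.sum_congr rfl fun k' _ => h6 k']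
      simp
    rw [← h3]
    exact Finset.sum_eq_zero fun i _ => by rw [h1 i, mul_zero]
  have h3 : ∀ i, v (Sum.inr 0) * x i + ∑ j : Fin n, v (Sum.inr j.succ) * D j (x i) = 0 := by
    intro i
    have h5 := h1 i
    rw [Finset.sum_eq_zero fun k _ => by rw [h2 k, zero_mul], zero_add, Fin.sum_univ_succ] at h5
    exact h5
  have h4 : v (Sum.inr 0) = 0 := by
    have h5 := h3 j0
    rw [hj0, mul_one, Finset.sum_eq_zero fun j _ => by
      rw [Derivation.map_one_eq_zero, mul_zero], add_zero] at h5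
    exact h5
  have h6 : (∑ j : Fin n, v (Sum.inr j.succ) • D j) = 0 := by
    apply hder
    intro a
    rw [Pool.Agent.Y988.NT.sum_der (fun j : Fin n => v (Sum.inr j.succ))]
    have h5 := h3 a
    rw [h4, zero_mul, zero_add] at h5
    exact h5
  rw [Fintype.linearIndependent_iff] at hD
  apply hv0
  funext a
  cases a with
  | inl k => exact h2 k
  | inr j =>
    refine Fin.cases ?_ (fun j => ?_) j
    · exact h4
    · exact hD (fun j => v (Sum.inr j.succ)) h6 j

/-- the dual rows at the generic point -/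
theorem exists_dual {F : κ → MvPolynomial (Fin N) ℂ} (hs : SmoothCI F) {x : Fin N → K}
    {j0 : Fin N} (hj0 : x j0 = 1) (hx : ∀ k, aeval x (F k) = 0) :
    ∃ C : κ → Fin N → K,
      ∀ k k', ∑ i, aeval x (pderiv i (F k)) * C k' i = (1 : Matrix κ κ K) k' k := by
  obtain ⟨M, B, h⟩ := cert_at hs j0 (A := K) (Z := x) hx
  rw [hj0, one_pow] at h
  obtain ⟨J, hJ⟩ : ∃ J : κ → Fin N → K, J = fun k i => aeval x (pderiv i (F k)) := ⟨_, rfl⟩
  have h' : ∑ c, aeval x (B c) * (Matrix.of fun k k' => J k (c k') : Matrix κ κ K).det = 1 := by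
    rw [hJ]
    exact h.symm
  refine ⟨drow J fun c => aeval x (B c), fun k k' => ?_⟩
  have h6 : ∀ i, aeval x (pderiv i (F k)) = J k i := fun i => by rw [hJ]
  rw [Finset.sum_congr rfl fun i _ => by rw [h6 i]]
  exact drow_spec h' k k'

end

end Pool.Agent.H301_CI
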